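import Pool.Agent.Lib.helper9.BorsukUlam

set_option autoImplicit false

namespace Pool.Agent.H.MP_ac3292_al

theorem noretr {E : Type*} [NormedAddCommGroup E] [NormedSpace ℝ E] [FiniteDimensional ℝ E]
    (G : E → E) (hG : Continuous G) (hb : ∀ x, ‖x‖ = 1 → G x = x) : ∃ x, G x = 0 := by
  obtain ⟨z, hz, h⟩ := Pool.Agent.Lib.helper9.BorsukUlam.borsuk_ulam (E := E × ℝ) (F := E)
    (Or.inr (by simp)) (fun z => ((1 + z.2) / 2) • G z.1 - ((1 - z.2) / 2) • G (-z.1))
    (Continuous.continuousOn (by fun_prop)) (fun z _ => by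
      simp only [Prod.fst_neg, Prod.snd_neg, neg_neg, neg_sub, sub_neg_eq_add]
      rw [← sub_eq_add_neg])
  rw [Prod.norm_def] at hz
  rcases max_choice ‖z.1‖ ‖z.2‖ with h1 | h1
  · rw [h1] at hz
    rw [hb _ hz, hb _ (by rwa [norm_neg]), smul_neg, sub_neg_eq_add, ← add_smul] at h
    have : (1 + z.2) / 2 + (1 - z.2) / 2 = 1 := by ring
    rw [this, one_smul] at h
    rw [h] at hz
    simp at hz
  · rw [h1, Real.norm_eq_abs] at hz
    rcases (abs_eq zero_le_one).1 hz with h2 | h2
    · exact ⟨z.1, by simpa [h2] using h⟩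
    · exact ⟨-z.1, by simpa [h2] using h⟩

theorem brouwer {E : Type*} [NormedAddCommGroup E] [NormedSpace ℝ E] [FiniteDimensional ℝ E]
    (f : E → E) (hf : Continuous f) (hb : ∀ x, ‖f x‖ ≤ 1) : ∃ x, f x = x := by
  obtain ⟨y, hy⟩ := noretr (fun y => y - (max 0 (min 1 (2 - 2 * ‖y‖)) / 2) • f ((2 : ℝ) • y))
    (by fun_prop) (fun x hx => by simp [hx])
  have h1 : ‖y‖ ≤ 1 / 2 := by
    rw [sub_eq_zero] at hy
    rw [hy, norm_smul, Real.norm_eq_abs, abs_of_nonneg (by positivity)]
    have : max 0 (min 1 (2 - 2 * ‖y‖)) ≤ 1 := max_le zero_le_one (min_le_left _ _)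
    have h2 := hb ((2 : ℝ) • y)
    have h3 : 0 ≤ max 0 (min 1 (2 - 2 * ‖y‖)) := le_max_left _ _
    nlinarith [norm_nonneg (f ((2 : ℝ) • y))]
  rw [min_eq_left (by linarith), max_eq_right zero_le_one, sub_eq_zero] at hy
  refine ⟨(2 : ℝ) • y, ?_⟩
  conv_rhs => rw [hy]
  rw [smul_smul]; norm_num

def lf {n : ℕ} (i : Option (Fin n)) (y : Fin n → ℝ) : ℝ := i.elim (-∑ j, y j) y

lemma lf_max {n : ℕ} (y : Fin n → ℝ) : ∃ i, ‖y‖ ≤ n * lf i y := by
  obtain ⟨i, hi⟩ := Finite.exists_max fun i => lf i y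
  have h0 : -∑ j, y j ≤ lf i y := hi none
  have h1 : ∀ j, y j ≤ lf i y := fun j => hi (some j)
  have h2 : ∑ j, y j ≤ n * lf i y := by
    simpa using Finset.sum_le_card_nsmul Finset.univ y _ fun j _ => h1 j
  have h3 : 0 ≤ lf i y := by
    by_contra c
    have : (0 : ℝ) ≤ n := Nat.cast_nonneg n
    nlinarith
  refine ⟨i, (pi_norm_le_iff_of_nonneg (by positivity)).2 fun j => ?_⟩
  have h4 : (1 : ℝ) ≤ n := by exact_mod_cast j.pos
  have h5 := Finset.sum_le_card_nsmul (Finset.univ.erase j) y _ fun j _ => h1 j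
  have h6 := Finset.add_sum_erase Finset.univ y (Finset.mem_univ j)
  rw [Finset.card_erase_of_mem (Finset.mem_univ j), Finset.card_univ, Fintype.card_fin,
    nsmul_eq_mul, Nat.cast_sub j.pos] at h5
  rw [Real.norm_eq_abs, abs_le]
  have := h1 j
  push_cast at h5
  constructor <;> nlinarith

lemma lf_lip {n : ℕ} (i : Option (Fin n)) (y z : Fin n → ℝ) :
    lf i y - lf i z ≤ (n + 1) * dist y z := by
  have h := fun j => abs_le.1 ((Real.dist_eq _ _).symm.trans_le (dist_le_pi_dist y z j))
  have h0 : (0 : ℝ) ≤ n := Nat.cast_nonneg n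
  have h1 : 0 ≤ dist y z := dist_nonneg
  cases i with
  | none =>
    have := Finset.sum_le_card_nsmul Finset.univ (fun j => z j - y j) (dist y z)
      fun j _ => by linarith [(h j).1]
    simp only [Finset.sum_sub_distrib, Finset.card_univ, Fintype.card_fin, nsmul_eq_mul] at this
    simp only [lf, Option.elim]
    linarith
  | some j =>
    simp only [lf, Option.elim]
    nlinarith [(h j).2]

theorem leb (n : ℕ) (hn : 0 < n) {ι : Type} (U : (Fin n → ℤ) → ι) (D : ℕ)
    (hD : ∀ x y, U x = U y → ∀ j, |x j - y j| ≤ D) :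
    ∃ x : Option (Fin n) → Fin n → ℤ, Function.Injective (fun i => U (x i)) ∧
      ∀ i i' j, |x i j - x i' j| ≤ 1 := by
  classical
  choose lab hlab using @lf_max n
  let c : (Fin n → ℤ) → Fin n → ℝ := fun x j => x j
  let la : (Fin n → ℤ) → Option (Fin n) := fun x => lab (c (Function.invFun U (U x)))
  let L : Option (Fin n) → Set (Fin n → ℝ) := fun i => c '' {x | la x = i}
  let a : Option (Fin n) → (Fin n → ℝ) → ℝ := fun i y =>
    if (L i).Nonempty then max 0 (1 - Metric.infDist y (L i)) else 0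
  have a0 : ∀ i y, 0 ≤ a i y := fun i y => by
    simp only [a]; split_ifs <;> simp
  have a1 : ∀ i, Continuous (a i) := fun i => by
    simp only [a]
    split_ifs
    · exact continuous_const.max (continuous_const.sub (Metric.continuous_infDist_pt _))
    · exact continuous_const
  have a2 : ∀ i y, 0 < a i y → ∃ x, la x = i ∧ dist y (c x) < 1 := fun i y h => by
    simp only [a] at h
    split_ifs at h with k
    · obtain ⟨_, ⟨x, h1, rfl⟩, h2⟩ := (Metric.infDist_lt_iff k).1
        (show Metric.infDist y (L i) < 1 by simpa using h)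
      exact ⟨x, h1, h2⟩
    · simp at h
  have a3 : ∀ y, ∃ i, 0 < a i y := fun y => by
    have k : c (fun j => round (y j)) ∈ L (la fun j => round (y j)) := ⟨_, rfl, rfl⟩
    refine ⟨la fun j => round (y j), ?_⟩
    simp only [a]
    rw [if_pos ⟨_, k⟩, lt_max_iff, sub_pos]
    exact Or.inr ((Metric.infDist_le_dist_of_mem k).trans_lt ((dist_pi_lt_iff one_pos).2
      fun j => by rw [Real.dist_eq]; linarith [abs_sub_round (y j)]))
  let F : (Fin n → ℝ) → Fin n → ℝ := fun y j => a (some j) y - a none y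
  have F1 : Continuous F := continuous_pi fun j => (a1 _).sub (a1 _)
  obtain ⟨y, hy⟩ : ∃ y, F y = 0 := by
    by_contra h
    push Not at h
    let N : ℝ := (D + 1) * (n * (n + 1) + 1) + 1
    have n0 : (0 : ℝ) < n := by exact_mod_cast hn
    have N0 : 0 < N := by positivity
    have nn : ∀ y, ‖-(‖F y‖⁻¹ • F y)‖ = 1 := fun y => by
      rw [norm_neg, norm_smul, norm_inv, norm_norm, inv_mul_cancel₀ (norm_ne_zero_iff.2 (h _))]
    obtain ⟨y, hy⟩ := brouwer (fun y => -(‖F (N • y)‖⁻¹ • F (N • y)))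
      (((F1.comp (continuous_const_smul N)).norm.inv₀ fun y => norm_ne_zero_iff.2 (h _)).smul
        (F1.comp (continuous_const_smul N))).neg
      fun y => (nn _).le
    have y1 : ‖y‖ = 1 := by rw [← hy, nn]
    set z := N • y with hz
    have z1 : ‖z‖ = N := by rw [hz, norm_smul, y1, mul_one, Real.norm_of_nonneg N0.le]
    have p0 : 0 < ‖F z‖ := norm_pos_iff.2 (h _)
    have k1 : ∀ i, 0 ≤ a i z * lf i z := fun i => by
      rcases (a0 i z).eq_or_lt with e | e
      · rw [← e, zero_mul]
      obtain ⟨x, e1, e2⟩ := a2 i z e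
      have e3 : dist (c x) (c (Function.invFun U (U x))) ≤ D :=
        (dist_pi_le_iff (Nat.cast_nonneg D)).2 fun j => by
          rw [Real.dist_eq]
          simp only [c]
          exact_mod_cast hD _ _ (Function.invFun_eq ⟨x, rfl⟩).symm j
      have e4 := hlab (c (Function.invFun U (U x)))
      change _ ≤ n * lf (la x) _ at e4
      rw [e1] at e4
      set w := c (Function.invFun U (U x))
      have e5 : dist w z ≤ D + 1 := by linarith [dist_triangle_left w z (c x), dist_comm z (c x)]
      have e6 := lf_lip i w z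
      have e7 := norm_sub_norm_le z w
      rw [← dist_eq_norm, dist_comm, z1] at e7
      have e8 : (n + 1 : ℝ) * dist w z ≤ (n + 1) * (D + 1) := by gcongr
      refine mul_nonneg e.le (nonneg_of_mul_nonneg_right (a := (n : ℝ)) ?_ n0)
      simp only [N] at e7
      nlinarith
    have k2 : ∑ j, F z j * z j = ∑ i, a i z * lf i z := by
      simp only [F, lf, Fintype.sum_option, Option.elim, sub_mul, Finset.sum_sub_distrib,
        ← Finset.mul_sum]
      ring
    have k3 : ∀ j, F z j * z j = -(‖F z‖ * N * y j ^ 2) := fun j => by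
      have := congrFun hy j
      simp only [Pi.neg_apply, Pi.smul_apply, smul_eq_mul] at this
      rw [hz, Pi.smul_apply, smul_eq_mul, ← hz, ← this]
      field_simp
    obtain ⟨j, hj⟩ : ∃ j, y j ≠ 0 := by
      by_contra k
      push Not at k
      rw [show y = 0 from funext k] at y1
      simp at y1
    have k4 := Finset.sum_nonneg (s := Finset.univ) fun i _ => k1 i
    simp only [← k2, k3, Finset.sum_neg_distrib] at k4
    have k5 : 0 < ∑ j, ‖F z‖ * N * y j ^ 2 :=
      Finset.sum_pos' (fun j _ => by positivity) ⟨j, Finset.mem_univ j, by positivity⟩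
    linarith
  obtain ⟨i0, h0⟩ := a3 y
  have h1 : ∀ j, a (some j) y = a none y := fun j => sub_eq_zero.1 (congrFun hy j)
  have h2 : ∀ i, a i y = a none y := fun i => by cases i; exacts [rfl, h1 _]
  choose x h3 h4 using fun i => a2 i y (by rw [h2, ← h2 i0]; exact h0)
  refine ⟨x, fun i i' e => ?_, fun i i' j => ?_⟩
  · rw [← h3 i, ← h3 i']
    simp only [la]
    rw [show U (x i) = U (x i') from e]
  · have h5 := (dist_triangle_left _ _ y).trans_lt (add_lt_add (h4 i) (h4 i'))
    have h6 := (dist_le_pi_dist _ _ j).trans_lt h5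
    rw [Real.dist_eq] at h6
    have : |x i j - x i' j| < 2 := by
      have : ((|x i j - x i' j| : ℤ) : ℝ) < (2 : ℤ) := by push_cast; simp only [c] at h6; linarith
      exact_mod_cast this
    omega

end Pool.Agent.H.MP_ac3292_al
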