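import Pool.Agent.H.MP_ac3292_al.A
import Pool.Agent.H.MP_1d7d98_al.A
import Pool.Agent.Lib.helper12.Grig

set_option autoImplicit false

namespace Pool.Agent.H.MP_ac3292_al
open Pool.Agent.H.MP_1d7d98_al

structure Nm (T : Type) [Group T] where
  ν : T → ℕ
  zero : ∀ g, ν g = 0 ↔ g = 1
  inv : ∀ g, ν g⁻¹ = ν g
  mul : ∀ g h, ν (g * h) ≤ ν g + ν h
  fin : ∀ k, {g | ν g ≤ k}.Finite
  par : ∀ g k, ν g = k + 1 → ∃ h, ν h = k ∧ ν (h⁻¹ * g) ≤ 1

variable {T : Type} [Group T]

lemma wd_nu {S : Set T} (hS : Subgroup.closure S = ⊤) (x y : T) :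
    wd S x y = wd S 1 (x⁻¹ * y) := by
  rw [← wd_mul hS x⁻¹, inv_mul_cancel]

noncomputable def mkNm (S : Finset T) (hS : Subgroup.closure (S : Set T) = ⊤) : Nm T where
  ν := wd S 1
  zero g := ⟨fun h => (wd_zero hS h).symm, fun h => h ▸ wd_self _⟩
  inv g := by rw [wd_comm, wd_nu hS, inv_inv, mul_one]
  mul g h := by simpa [wd_nu hS g] using wd_tri hS 1 g (g * h)
  fin k := by
    induction k with
    | zero => exact (Set.finite_singleton 1).subset fun g h => (wd_zero hS (Nat.le_zero.1 h)).symm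
    | succ k ih =>
      refine (ih.union (ih.mul (S.finite_toSet.union S.finite_toSet.inv))).subset fun g h => ?_
      rcases Nat.le_succ_iff.1 h with h | h
      · exact Or.inl h
      · obtain ⟨z, h1, h2⟩ := wd_step hS ((wd_comm g 1).trans h)
        refine Or.inr ⟨z, ((wd_comm 1 z).trans h2).le, z⁻¹ * g, ?_, by simp⟩
        rcases h1 with h1 | h1
        · exact Or.inr (by simpa using h1)
        · exact Or.inl h1
  par g k h := by
    obtain ⟨z, h1, h2⟩ := wd_step hS ((wd_comm g 1).trans h)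
    exact ⟨z, (wd_comm 1 z).trans h2, by rw [← wd_nu hS]; exact wd_st h1.symm⟩

lemma bdd {α : Type} {F : Set α} (h : F.Finite) (φ : α → ℕ) : ∃ D, ∀ g ∈ F, φ g ≤ D :=
  let ⟨D, hD⟩ := (h.image φ).bddAbove
  ⟨D, fun g c => hD ⟨g, c, rfl⟩⟩

namespace Nm
variable (N : Nm T)

lemma one : N.ν 1 = 0 := (N.zero 1).2 rfl

lemma tri (x y z : T) : N.ν (x⁻¹ * z) ≤ N.ν (x⁻¹ * y) + N.ν (y⁻¹ * z) := by
  simpa [mul_assoc] using N.mul (x⁻¹ * y) (y⁻¹ * z)

lemma comm (x y : T) : N.ν (x⁻¹ * y) = N.ν (y⁻¹ * x) := by rw [← N.inv]; simp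

lemma le (x y : T) : N.ν y ≤ N.ν x + N.ν (x⁻¹ * y) := by simpa using N.mul x (x⁻¹ * y)

lemma anc_ex (g : T) : ∃ γ : ℕ → T, γ (N.ν g) = g ∧ (∀ j ≤ N.ν g, N.ν (γ j) = j) ∧
    ∀ j < N.ν g, N.ν ((γ j)⁻¹ * γ (j + 1)) ≤ 1 := by
  generalize hk : N.ν g = k
  induction k generalizing g with
  | zero => exact ⟨fun _ => g, rfl, fun j h => by rw [hk, Nat.le_zero.1 h], by simp⟩
  | succ k ih =>
    obtain ⟨h, h1, h2⟩ := N.par g k hk
    obtain ⟨γ, c1, c2, c3⟩ := ih h h1
    refine ⟨fun j => if j ≤ k then γ j else g, by simp, fun j c => ?_, fun j c => ?_⟩ <;>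
      dsimp only
    · split_ifs with d
      · exact c2 j d
      · omega
    · rw [if_pos (by omega)]
      split_ifs with d
      · exact c3 j d
      · rwa [show j = k by omega, c1]

noncomputable def anc (g : T) : ℕ → T := (N.anc_ex g).choose

lemma anc_top (g : T) : N.anc g (N.ν g) = g := (N.anc_ex g).choose_spec.1
lemma anc_nu (g : T) {j : ℕ} (h : j ≤ N.ν g) : N.ν (N.anc g j) = j :=
  (N.anc_ex g).choose_spec.2.1 j h

lemma anc_dist (g : T) (i k : ℕ) (h : i + k ≤ N.ν g) :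
    N.ν ((N.anc g i)⁻¹ * N.anc g (i + k)) = k := by
  refine le_antisymm ?_ ?_
  · induction k with
    | zero => simp [N.one]
    | succ k ih =>
      have := N.tri (N.anc g i) (N.anc g (i + k)) (N.anc g (i + k + 1))
      have h1 : N.ν ((N.anc g (i + k))⁻¹ * N.anc g (i + k + 1)) ≤ 1 :=
        (N.anc_ex g).choose_spec.2.2 _ (by omega)
      have := ih (by omega)
      rw [← add_assoc]
      omega
  · have := N.le (N.anc g i) (N.anc g (i + k))
    rw [N.anc_nu g h, N.anc_nu g (by omega)] at this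
    omega

lemma big [Infinite T] (k : ℕ) : ∃ g, N.ν g = k := by
  obtain ⟨g, hg⟩ := (N.fin k).exists_notMem
  exact ⟨_, N.anc_nu g (not_le.1 hg).le⟩

lemma line [Infinite T] : ∃ γ : ℤ → T, γ 0 = 1 ∧ ∀ i j, N.ν ((γ i)⁻¹ * γ j) = (i - j).natAbs := by
  choose g hg using N.big
  let c : ℕ → ℤ → T := fun n i => (N.anc (g (2 * n)) n)⁻¹ * N.anc (g (2 * n)) (n + i).toNat
  have h1 : ∀ (n : ℕ) (i j : ℤ), i.natAbs ≤ n → j.natAbs ≤ n →
      N.ν ((c n i)⁻¹ * c n j) = (i - j).natAbs := by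
    intro n i j hi hj
    wlog h : i ≤ j generalizing i j
    · rw [N.comm, this j i hj hi (by omega)]; omega
    simp only [c, mul_inv_rev, inv_inv, mul_assoc, mul_inv_cancel_left]
    rw [show (n + j).toNat = (n + i).toNat + (i - j).natAbs by omega, N.anc_dist]
    rw [hg]; omega
  have h0 : ∀ n, c n 0 = 1 := fun n => by simp [c]
  have h2 : ∀ i : ℤ, ∃ x, ∀ᶠ n in (Filter.hyperfilter ℕ : Filter ℕ), i.natAbs ≤ n ∧ c n i = x := by
    intro i
    have : ∀ᶠ n in (Filter.hyperfilter ℕ : Filter ℕ),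
        ∃ x ∈ {x | N.ν x ≤ i.natAbs}, i.natAbs ≤ n ∧ c n i = x :=
      ((Filter.eventually_ge_atTop i.natAbs).filter_mono Nat.hyperfilter_le_atTop).mono
        fun n h => ⟨_, by
          have := h1 n 0 i (by simp) h
          rw [h0] at this
          simpa using this.le, h, rfl⟩
    obtain ⟨x, -, h⟩ := (Ultrafilter.eventually_exists_mem_iff (N.fin _)).1 this
    exact ⟨x, h⟩
  choose γ hγ using h2
  refine ⟨γ, ?_, fun i j => ?_⟩
  · obtain ⟨n, -, h⟩ := (hγ 0).exists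
    rw [← h, h0]
  · obtain ⟨n, ⟨a, b⟩, d, e⟩ := ((hγ i).and (hγ j)).exists
    rw [← b, ← e, h1 n i j a d]

end Nm

lemma no_amalg {G H : Type} [Group G] [Group H] (hG : IsMulTorsion G) {K : Bool → Type}
    [∀ i, Group (K i)] (φ : ∀ i, H →* K i) (hφ : ∀ i, Function.Injective (φ i))
    (a : ∀ i, K i) (ha : ∀ i, a i ∉ (φ i).range) (e : Monoid.PushoutI φ ≃* G) : False := by
  let l : ℕ → List (Σ i, K i) := fun n =>
    Nat.rec [] (fun _ l => ⟨false, a false⟩ :: ⟨true, a true⟩ :: l) n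
  have l1 : ∀ n, ∀ x ∈ l n, x.2 ∉ (φ x.1).range := fun n => by
    induction n with
    | zero => simp [l]
    | succ n ih => exact List.forall_mem_cons.2 ⟨ha _, List.forall_mem_cons.2 ⟨ha _, ih⟩⟩
  have l2 : ∀ n, (⟨true, a true⟩ :: l n).IsChain fun x y : Σ i, K i => x.1 ≠ y.1 := fun n => by
    induction n with
    | zero => simp [l]
    | succ n ih => simpa [l] using ih
  have l3 : ∀ n, Monoid.PushoutI.ofCoprodI (φ := φ)
      ((l n).map fun x => Monoid.CoprodI.of x.2).prod =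
      (Monoid.PushoutI.of false (a false) * Monoid.PushoutI.of true (a true)) ^ n := fun n => by
    induction n with
    | zero => simp [l]
    | succ n ih => simpa [l, pow_succ', mul_assoc] using ih
  obtain ⟨n, h1, h2⟩ := isOfFinOrder_iff_pow_eq_one.1
    (hG (e (Monoid.PushoutI.of false (a false) * Monoid.PushoutI.of true (a true))))
  rw [← map_pow, EmbeddingLike.map_eq_one_iff, ← l3] at h2
  have := Monoid.PushoutI.Reduced.eq_empty_of_mem_range hφ
    (w := ⟨l n, fun x c d => l1 n x c (d ▸ one_mem _), (l2 n).tail⟩) (l1 n) ⟨1, by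
      rw [map_one]; exact h2.symm⟩
  obtain ⟨n, rfl⟩ := Nat.exists_eq_succ_of_ne_zero h1.ne'
  simp [l, Monoid.CoprodI.Word.empty] at this

lemma no_hnn {G A : Type} [Group G] [Group A] (hG : IsMulTorsion G) {B C : Subgroup A}
    (φ : B ≃* C) (e : HNNExtension A B C φ ≃* G) : False := by
  obtain ⟨n, h1, h2⟩ := isOfFinOrder_iff_pow_eq_one.1 (hG (e HNNExtension.t))
  rw [← map_pow, EmbeddingLike.map_eq_one_iff] at h2
  have := congrArg (HNNExtension.lift (φ := φ) 1 (Multiplicative.ofAdd (1 : ℤ)) (by simp)) h2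
  rw [map_pow, HNNExtension.lift_t, MonoidHom.map_one, ← ofAdd_nsmul] at this
  simp at this
  omega

open Pool.Agent.Lib.helper12.Grig

instance : Infinite Grig := by
  have h0 : ∀ s, gen s ∈ Grig := fun s => Subgroup.subset_closure ⟨s, rfl⟩
  have h1 : ∀ g ∈ Grig, ∃ h ∈ Grig, ∀ w, h (true :: w) = true :: g w := fun g hg => by
    induction hg using Subgroup.closure_induction with
    | mem g hg =>
      obtain ⟨s, rfl⟩ := hg
      cases s
      · exact ⟨_, mul_mem (h0 .a) (mul_mem (h0 .b) (h0 .a)), fun w => rfl⟩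
      · exact ⟨_, h0 .d, fun w => rfl⟩
      · exact ⟨_, h0 .b, fun w => rfl⟩
      · exact ⟨_, h0 .c, fun w => rfl⟩
    | one => exact ⟨1, one_mem _, fun w => rfl⟩
    | mul g g' _ _ c d =>
      obtain ⟨h, c1, c2⟩ := c
      obtain ⟨h', d1, d2⟩ := d
      exact ⟨h * h', mul_mem c1 d1, fun w => by simp [c2, d2]⟩
    | inv g _ c =>
      obtain ⟨h, c1, c2⟩ := c
      exact ⟨h⁻¹, inv_mem c1, fun w => by rw [Equiv.Perm.inv_eq_iff_eq, c2]; simp⟩
  have h2 : ∀ n, ∃ g : Grig, ∀ w, g.1 (List.replicate n true ++ w) =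
      List.replicate n true ++ act .a w := fun n => by
    induction n with
    | zero => exact ⟨⟨_, h0 .a⟩, fun w => rfl⟩
    | succ n ih =>
      obtain ⟨g, c⟩ := ih
      obtain ⟨h, c1, c2⟩ := h1 g.1 g.2
      exact ⟨⟨h, c1⟩, fun w => by simp [List.replicate_succ, c2, c]⟩
  choose g hg using h2
  refine Infinite.of_injective g (Function.Injective.of_lt_imp_ne fun n m c e => ?_)
  obtain ⟨k, rfl⟩ := Nat.exists_eq_add_of_lt c
  have c1 := hg n (true :: List.replicate k true)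
  have c2 := hg (n + k + 1) []
  rw [← e, List.append_nil, add_assoc, List.replicate_add, List.replicate_succ, c1] at c2
  simp [act] at c2

lemma grig_fg : Group.FG Grig := by
  have : Finite Gen := Finite.of_surjective (![.a, .b, .c, .d] : Fin 4 → Gen) fun s => by
    cases s
    exacts [⟨0, rfl⟩, ⟨1, rfl⟩, ⟨2, rfl⟩, ⟨3, rfl⟩]
  exact Group.closure_finite_fg (Set.range gen)

abbrev T4 : Type := Fin 4 → Grig

instance : Group.FG T4 := by
  have := grig_fg
  infer_instance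

lemma T4_tor : IsMulTorsion T4 := fun g => IsOfFinOrder.pi fun i => torsion (g i)

end Pool.Agent.H.MP_ac3292_al
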