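import Pool.Agent.H.MP_ac3292_al.B

set_option autoImplicit false

namespace Pool.Agent.H.MP_ac3292_al
open Pool.Agent.H.MP_1d7d98_al

@[ext] structure W (T : Type) where
  f : T →₀ ZMod 2
  u : T

variable {T : Type} [Group T]

noncomputable def sh (u : T) (f : T →₀ ZMod 2) : T →₀ ZMod 2 :=
  Finsupp.equivMapDomain (Equiv.mulLeft u) f

@[simp] lemma sh_apply (u : T) (f : T →₀ ZMod 2) (p : T) : sh u f p = f (u⁻¹ * p) := by
  simp [sh]

noncomputable instance : Mul (W T) := ⟨fun g h => ⟨g.f + sh g.u h.f, g.u * h.u⟩⟩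
instance : One (W T) := ⟨⟨0, 1⟩⟩
noncomputable instance : Inv (W T) := ⟨fun g => ⟨sh g.u⁻¹ g.f, g.u⁻¹⟩⟩

@[simp] lemma mul_f (g h : W T) (p : T) : (g * h).f p = g.f p + h.f (g.u⁻¹ * p) := by
  show (g.f + sh g.u h.f) p = _
  simp
@[simp] lemma mul_u (g h : W T) : (g * h).u = g.u * h.u := rfl
@[simp] lemma one_f : (1 : W T).f = 0 := rfl
@[simp] lemma one_u : (1 : W T).u = 1 := rfl
@[simp] lemma inv_f (g : W T) (p : T) : (g⁻¹).f p = g.f (g.u * p) := by
  show (sh g.u⁻¹ g.f) p = _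
  simp
@[simp] lemma inv_u (g : W T) : (g⁻¹).u = g.u⁻¹ := rfl

noncomputable instance : Group (W T) := Group.ofLeftAxioms
  (fun a b c => by ext <;> simp [add_assoc, mul_assoc])
  (fun a => by ext <;> simp) (fun a => by ext <;> simp [CharTwo.add_self_eq_zero])

noncomputable def cur : W T →* T := MonoidHom.mk' W.u mul_u

noncomputable def inr : T →* W T := MonoidHom.mk' (fun u => ⟨0, u⟩) fun a b => by ext <;> simp

lemma W_tor (h : IsMulTorsion T) : IsMulTorsion (W T) := fun g => by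
  obtain ⟨n, h1, h2⟩ := isOfFinOrder_iff_pow_eq_one.1 (h g.u)
  have h3 : (g ^ n).u = 1 := (map_pow cur g n).trans h2
  refine isOfFinOrder_iff_pow_eq_one.2 ⟨n * 2, by omega, ?_⟩
  rw [pow_mul, pow_two]
  ext <;> simp [h3, CharTwo.add_self_eq_zero]

noncomputable def lamp : W T := ⟨Finsupp.single 1 1, 1⟩

open Classical in
noncomputable def SW (S : Finset T) : Finset (W T) := insert lamp (S.image inr)

lemma SW_gen (S : Finset T) (hS : Subgroup.closure (S : Set T) = ⊤) :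
    Subgroup.closure (SW S : Set (W T)) = ⊤ := by
  classical
  have h1 : ∀ u, inr u ∈ Subgroup.closure (SW S : Set (W T)) := fun u => by
    have : (Subgroup.closure (S : Set T)).map inr ≤ Subgroup.closure (SW S : Set (W T)) := by
      rw [MonoidHom.map_closure]
      exact Subgroup.closure_mono (by rintro _ ⟨x, c, rfl⟩; simp [SW]; exact Or.inr ⟨x, c, rfl⟩)
    exact this ⟨u, hS ▸ trivial, rfl⟩
  have h2 : lamp ∈ Subgroup.closure (SW S : Set (W T)) := Subgroup.subset_closure (by simp [SW])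
  have h3 : ∀ f, (⟨f, 1⟩ : W T) ∈ Subgroup.closure (SW S : Set (W T)) := fun f => by
    induction f using Finsupp.induction with
    | zero => exact one_mem _
    | single_add p b d _ c ih =>
      obtain rfl : b = 1 := (by decide : ∀ b : ZMod 2, b ≠ 0 → b = 1) b c
      convert mul_mem (mul_mem (mul_mem (h1 p) h2) (inv_mem (h1 p))) ih using 1
      ext q
      · simp [inr, lamp, Finsupp.single_apply, eq_inv_mul_iff_mul_eq]
      · simp [inr, lamp]
  refine eq_top_iff.2 fun g _ => ?_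
  convert mul_mem (h3 g.f) (h1 g.u) using 1
  ext <;> simp [inr]

lemma SW_st {S : Finset T} {g h : W T} (c : St (SW S : Set (W T)) g h) (h1 : g.u ≠ 1)
    (h2 : h.u ≠ 1) : g.f 1 = h.f 1 := by
  classical
  wlog d : g⁻¹ * h ∈ SW S generalizing g h
  · exact (this c.symm h2 h1 (c.resolve_left d)).symm
  obtain ⟨s, rfl⟩ : ∃ s, h = g * s := ⟨g⁻¹ * h, by simp⟩
  simp only [SW, inv_mul_cancel_left, Finset.mem_insert, Finset.mem_image] at d
  rcases d with rfl | ⟨x, -, rfl⟩
  · simp [lamp, Finsupp.single_eq_of_ne, h1]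
  · simp [inr]

def Bx (N : Nm T) (a : ℕ) : Set (W T) := {g | N.ν g.u ≤ a ∧ ∀ p, a < N.ν p → g.f p = 0}

lemma Bx_fin (N : Nm T) (a : ℕ) : (Bx N a).Finite := by
  have := (N.fin a).to_subtype
  refine Set.Finite.of_finite_image
    (f := fun g : W T => (g.u, fun p : {p | N.ν p ≤ a} => g.f p))
    (((N.fin a).prod Set.finite_univ).subset ?_) fun g c h d e => ?_
  · rintro _ ⟨g, c, rfl⟩; exact ⟨c.1, trivial⟩
  · refine W.ext (Finsupp.ext fun p => ?_) (congrArg Prod.fst e)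
    by_cases k : N.ν p ≤ a
    · exact congrFun (congrArg Prod.snd e) ⟨p, k⟩
    · rw [c.2 p (not_le.1 k), d.2 p (not_le.1 k)]

lemma Bx_ex (N : Nm T) {F : Set (W T)} (h : F.Finite) : ∃ a, F ⊆ Bx N a := by
  obtain ⟨a, ha⟩ := bdd h fun g => max (N.ν g.u) (g.f.support.sup N.ν)
  refine ⟨a, fun g c => ⟨(le_max_left _ _).trans (ha g c), fun p d => by_contra fun k => ?_⟩⟩
  have := Finset.le_sup (f := N.ν) (Finsupp.mem_support_iff.2 k)
  have := (le_max_right _ _).trans (ha g c)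
  omega

lemma Bx_iff (N : Nm T) (a : ℕ) (g h : W T) : g⁻¹ * h ∈ Bx N a ↔
    N.ν (g.u⁻¹ * h.u) ≤ a ∧ ∀ p, a < N.ν (g.u⁻¹ * p) → g.f p = h.f p := by
  have z : ∀ x y : ZMod 2, x + y = 0 ↔ x = y := by decide
  simp only [Bx, Set.mem_ofPred_eq, mul_u, inv_u, mul_f, inv_f, inv_inv, z]
  exact and_congr_right fun _ => ⟨fun c p d => by simpa using c _ d,
    fun c p d => c _ (by simpa using d)⟩

lemma hi {G : Type} [Group G] (N : Nm G) (i : T4 →* G) (π : G →* T4) (h : ∀ x, π (i x) = x)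
    {ι : Type} : ∃ R, ∀ (U : G → ι) (D : ℕ), (∀ x y, U x = U y → N.ν (x⁻¹ * y) ≤ D) →
      ∃ x : Option (Fin 4) → G, Function.Injective (fun j => U (x j)) ∧
        ∀ j, N.ν ((x none)⁻¹ * x j) ≤ R := by
  obtain ⟨S, hS⟩ := grig_fg.out
  let M := mkNm S hS
  obtain ⟨γ, -, hγ⟩ := M.line
  obtain ⟨R, hR⟩ := bdd (Set.Finite.pi' fun _ : Fin 4 => M.fin 1) fun t => N.ν (i t)
  refine ⟨R, fun U D hD => ?_⟩
  obtain ⟨E, hE⟩ := bdd (N.fin D) fun g => ∑ k, M.ν (π g k)
  obtain ⟨x, h1, h2⟩ := leb 4 (by norm_num) (fun x => U (i fun k => γ (x k))) E fun x y e j => by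
    have := hE _ (hD _ _ e)
    simp only [map_mul, map_inv, h, Pi.mul_apply, Pi.inv_apply, hγ] at this
    have h3 := Finset.single_le_sum (f := fun k => (x k - y k).natAbs) (fun _ _ => Nat.zero_le _)
      (Finset.mem_univ j)
    rw [Int.abs_eq_natAbs]
    exact_mod_cast h3.trans this
  refine ⟨fun j => i fun k => γ (x j k), h1, fun j => ?_⟩
  rw [← map_inv, ← map_mul]
  refine hR _ fun k => ?_
  have := h2 none j k
  simp only [Set.mem_ofPred_eq, Pi.mul_apply, Pi.inv_apply, hγ]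
  rw [Int.abs_eq_natAbs] at this
  exact_mod_cast this

lemma five {ι : Type} {s : Set ι} (x : Option (Fin 4) → ι) (h : Function.Injective x)
    (hs : ∀ j, x j ∈ s) : 5 ≤ s.encard := by
  have := Set.encard_le_encard (s := Set.range x) (t := s) (by rintro _ ⟨j, rfl⟩; exact hs j)
  simpa using h.encard_range.trans this

end Pool.Agent.H.MP_ac3292_al
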